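import Pool.Agent.H83.AT.Targets

open CategoryTheory CategoryTheory.Limits TopologicalSpace Topology Set Opposite

namespace Pool.Agent.H34.AT

open Pool.Agent.H96.AL Pool.Agent.H85.AU Pool.Agent.H83.AT

theorem hm : T_HM := by
  intro X Z W W' h hh
  have hc : Continuous (fun z : osp W × unitInterval => h z.1.1 z.2.1) := by
    have h1 : Continuous (fun z : osp W × unitInterval => ((z.1.1 : X), (z.2.1 : ℝ))) := by
      have a1 : Continuous (fun z : osp W × unitInterval => (z.1.1 : X)) :=
        continuous_subtype_val.comp continuous_fst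
      have a2 : Continuous (fun z : osp W × unitInterval => (z.2.1 : ℝ)) :=
        continuous_subtype_val.comp continuous_snd
      exact a1.prodMk a2
    exact hh.cont.comp_continuous h1 (fun z => ⟨z.1.2, z.2.2⟩)
  refine ⟨TopCat.ofHom ⟨fun z => h z.1.1 z.2.1, hc⟩, fun w t => rfl, ?_⟩
  apply TopCat.hom_ext
  apply ContinuousMap.ext
  intro w
  exact hh.init w.1 w.2

end Pool.Agent.H34.AT
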