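import Pool.Agent.H83.AT.Targets

open CategoryTheory CategoryTheory.Limits TopologicalSpace Topology Set Opposite

namespace Pool.Agent.H34.AT

open Pool.Agent.H96.AL Pool.Agent.H85.AU Pool.Agent.H83.AT

lemma isBas_map {F : Type} [Field F] {V W : Type} [AddCommGroup V] [Module F V]
    [AddCommGroup W] [Module F W] (f : V →ₗ[F] W) (hf : Function.Bijective f) {r : ℕ}
    {v : Fin r → V} (hv : IsBas (F := F) v) : IsBas (F := F) (fun i => f (v i)) := by
  refine ⟨hv.1.map' f (LinearMap.ker_eq_bot.2 hf.1), ?_⟩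
  have e : Set.range (fun i => f (v i)) = f '' Set.range v := by
    rw [← Set.range_comp]
    rfl
  rw [e, ← Submodule.map_span, hv.2, Submodule.map_top]
  exact LinearMap.range_eq_top.2 hf.2

theorem lm : T_LM := by
  intro F _ X S N A B φ hφ hA x hx
  obtain ⟨V, r, s, hxV, hr, hs⟩ := hA x hx
  refine ⟨V, r, fun i => ap φ V (s i), hxV, hr, fun y hy hyS => ?_⟩
  have h1 := isBas_map (sm φ y) (hφ y hyS) (hs y hy hyS)
  have h2 : (fun i => gm B hy (ap φ V (s i))) = fun i => sm φ y (gm A hy (s i)) :=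
    funext fun i => gm_ap φ hy (s i)
  rw [h2]
  exact h1

end Pool.Agent.H34.AT
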