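import Pool.Agent.H83.AT.Targets

open CategoryTheory CategoryTheory.Limits TopologicalSpace Topology Set Opposite

namespace Pool.Agent.H34.AT

open Pool.Agent.H96.AL Pool.Agent.H85.AU Pool.Agent.H83.AT

theorem tl : T_TL := by
  intro W w O hO
  obtain ⟨u, v, hu, -, hwu, hv, huv⟩ := generalized_tube_lemma (X := W) (Y := unitInterval)
    (isCompact_singleton (x := w)) (isCompact_univ (X := unitInterval))
    (n := (O : Set (W × unitInterval))) O.isOpen
    (by
      rintro ⟨a, b⟩ ⟨ha, -⟩
      have : a = w := ha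
      rw [this]
      exact hO b)
  refine ⟨⟨u, hu⟩, hwu rfl, ?_⟩
  rintro ⟨a, b⟩ hab
  exact huv ⟨hab, hv (mem_univ b)⟩

end Pool.Agent.H34.AT
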